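import Pool.Agent.Helper5.ST.GoalsA

/-! Packet HELCS. -/

namespace Pool.Agent.Helper27.ST

open Pool.Agent.Helper5.Gap Pool.Agent.Helper5.ST Filter Topology

universe u

theorem helCS : SHelCS.{u} := by
  intro ι t p q f hp hq
  have h1 : ∑ i ∈ t, (p i - q i) * f i =
      ∑ i ∈ t, (√(p i) - √(q i)) * ((√(p i) + √(q i)) * f i) := by
    refine Finset.sum_congr rfl (fun i hi => ?_)
    have e1 := Real.mul_self_sqrt (hp i hi)
    have e2 := Real.mul_self_sqrt (hq i hi)
    have : p i - q i = (√(p i) - √(q i)) * (√(p i) + √(q i)) := by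
      calc p i - q i = √(p i) * √(p i) - √(q i) * √(q i) := by rw [e1, e2]
        _ = _ := by ring
    rw [this]
    ring
  rw [h1]
  refine (Finset.sum_mul_sq_le_sq_mul_sq t _ _).trans ?_
  refine mul_le_mul_of_nonneg_left ?_ (Finset.sum_nonneg fun i _ => sq_nonneg _)
  rw [Finset.mul_sum]
  refine Finset.sum_le_sum (fun i hi => ?_)
  have e1 := Real.sq_sqrt (hp i hi)
  have e2 := Real.sq_sqrt (hq i hi)
  have e3 : (√(p i) + √(q i)) ^ 2 ≤ 2 * (p i + q i) := by
    nlinarith [sq_nonneg (√(p i) - √(q i))]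
  rw [mul_pow]
  have := mul_le_mul_of_nonneg_right e3 (sq_nonneg (f i))
  linarith

end Pool.Agent.Helper27.ST
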