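import Pool.Agent.Helper5.ST.GoalsB

/-! Packet UNI. -/

namespace Pool.Agent.Helper27.ST

open Pool.Agent.Helper5.Gap Pool.Agent.Helper5.ST Filter Topology
open scoped commutatorElement

universe u

section

variable {H : Type u} [Group H] {m : ℕ} (L : H →* Module.End ℚ (Fin m → ℚ))
  (v : H → (Fin m → ℚ)) (hv : ∀ t s, v (t * s) = v t + L t (v s))

include hv in
theorem v_one : v 1 = 0 := by
  have h := hv 1 1
  rw [mul_one, map_one, Module.End.one_apply] at h
  exact left_eq_add.1 h

/-- The affine representation as block matrices. -/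
noncomputable def blk : H →* Matrix (Fin m ⊕ Fin 1) (Fin m ⊕ Fin 1) ℚ where
  toFun t := Matrix.fromBlocks (LinearMap.toMatrix' (L t)) (Matrix.of fun i _ => v t i) 0 1
  map_one' := by
    rw [map_one, v_one L v hv, LinearMap.toMatrix'_one]
    rw [← Matrix.fromBlocks_one]
    congr 1
  map_mul' s t := by
    rw [Matrix.fromBlocks_multiply, map_mul, LinearMap.toMatrix'_mul, hv]
    congr 1
    · simp
    · ext i j
      simp only [Matrix.of_apply, Pi.add_apply, Matrix.add_apply, Matrix.mul_apply,
        Matrix.mul_one]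
      rw [add_comm]
      congr 1
      rw [← LinearMap.toMatrix'_mulVec (L s) (v t)]
      rfl
    · simp
    · simp

/-- The affine representation. -/
noncomputable def aff : H →* Matrix.GeneralLinearGroup (Fin (m + 1)) ℚ :=
  (((Matrix.reindexAlgEquiv ℚ ℚ (finSumFinEquiv : Fin m ⊕ Fin 1 ≃ Fin (m + 1))).toMulEquiv :
    Matrix (Fin m ⊕ Fin 1) (Fin m ⊕ Fin 1) ℚ →* Matrix (Fin (m + 1)) (Fin (m + 1)) ℚ).comp
      (blk L v hv)).toHomUnits

theorem aff_eq_one {t : H} (h : aff L v hv t = 1) : v t = 0 := by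
  have h1 : Matrix.reindexAlgEquiv ℚ ℚ (finSumFinEquiv : Fin m ⊕ Fin 1 ≃ Fin (m + 1))
      (blk L v hv t) = 1 := congrArg Units.val h
  have h2 : blk L v hv t = 1 := by
    apply (Matrix.reindexAlgEquiv ℚ ℚ (finSumFinEquiv : Fin m ⊕ Fin 1 ≃ Fin (m + 1))).injective
    rw [h1, map_one]
  ext i
  have h3 : blk L v hv t (Sum.inl i) (Sum.inr 0) = v t i := rfl
  rw [← h3, h2]
  simp

end

theorem uni : SUni.{u} := by
  intro H _ N _ m ι L v hι hL hspan hv hvι hΦ
  obtain ⟨C, hCfin, hCnil⟩ := hΦ (aff L v hv)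
  obtain ⟨c, hc⟩ := (Subgroup.isNilpotent_iff_lowerCentralSeries C).1 hCnil
  set ρ := (aff L v hv).rangeRestrict with hρ
  have hρv : ∀ t, ρ t = 1 → v t = 0 := by
    intro t ht
    apply aff_eq_one L v hv
    exact congrArg Subtype.val ht
  have hC' : (C.comap ρ).FiniteIndex := by
    refine ⟨?_⟩
    rw [Subgroup.index_comap_of_surjective C (aff L v hv).rangeRestrict_surjective]
    exact hCfin.index_ne_zero
  set A := (C.comap ρ).normalCore with hA
  have hAle : A ≤ C.comap ρ := Subgroup.normalCore_le _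
  have hAfin : A.FiniteIndex := inferInstance
  have hAn : A.Normal := Subgroup.normalCore_normal _
  have hι1 : ι 1 = 0 := by
    have h := hι 1 1
    rw [mul_one] at h
    exact left_eq_add.1 h
  have hιinv : ∀ x, ι x⁻¹ = - ι x := by
    intro x
    have h := hι x x⁻¹
    rw [mul_inv_cancel, hι1] at h
    exact (neg_eq_of_add_eq_zero_right h.symm).symm
  have hιpow : ∀ (x : N) (e : ℕ), ι (x ^ e) = (e : ℚ) • ι x := by
    intro x e
    induction e with
    | zero => simp [hι1]
    | succ e ih =>
      rw [pow_succ, hι, ih]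
      push_cast
      rw [add_smul, one_smul]
  let W : ℕ → Submodule ℚ (Fin m → ℚ) := fun j =>
    Submodule.span ℚ {x | ∃ n : N, (n : H) ∈ A ∧ ρ n ∈ C.lowerCentralSeries j ∧ ι n = x}
  refine ⟨A, hAn, hAfin, c, W, ?_, ?_, ?_⟩
  · rw [eq_top_iff, ← hspan, Submodule.span_le]
    rintro _ ⟨x, rfl⟩
    obtain ⟨e, he, -, hmem⟩ := Subgroup.exists_pow_mem_of_index_ne_zero hAfin.index_ne_zero (x : H)
    have h1 : ι (x ^ e) ∈ W 0 := by
      refine Submodule.subset_span ⟨x ^ e, ?_, ?_, rfl⟩
      · simpa using hmem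
      · rw [Subgroup.lowerCentralSeries_zero]
        have := hAle hmem
        simpa using this
    rw [hιpow] at h1
    have h2 := (W 0).smul_mem ((e : ℚ)⁻¹) h1
    rwa [smul_smul, inv_mul_cancel₀ (by exact_mod_cast he.ne'), one_smul] at h2
  · rw [eq_bot_iff]
    refine Submodule.span_le.2 ?_
    rintro x ⟨n, -, hn, rfl⟩
    rw [hc, Subgroup.mem_bot] at hn
    have := hρv _ hn
    rw [hvι] at this
    exact this
  · intro j x hx a ha
    change x ∈ Submodule.span ℚ _ at hx
    induction hx using Submodule.span_induction with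
    | mem x hx =>
      obtain ⟨n, hnA, hn, rfl⟩ := hx
      have h1 : L a (ι n) - ι n = ι (MulAut.conjNormal a n * n⁻¹) := by
        rw [hι, hL, hιinv, sub_eq_add_neg]
      rw [h1]
      refine Submodule.subset_span ⟨_, ?_, ?_, rfl⟩
      · have h2 : ((MulAut.conjNormal a n * n⁻¹ : N) : H) = a * n * a⁻¹ * (n : H)⁻¹ := by
          simp
        rw [h2]
        exact A.mul_mem (A.mul_mem (A.mul_mem ha hnA) (A.inv_mem ha)) (A.inv_mem hnA)
      · have h2 : ρ ((MulAut.conjNormal a n * n⁻¹ : N) : H) = ⁅ρ n, ρ a⁆⁻¹ := by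
          have : ((MulAut.conjNormal a n * n⁻¹ : N) : H) = ⁅(n : H), a⁆⁻¹ := by
            rw [commutatorElement_def]
            simp [mul_assoc]
          rw [this, map_inv, map_commutatorElement]
        rw [h2]
        refine Subgroup.inv_mem _ ?_
        rw [Subgroup.lowerCentralSeries_succ]
        exact Subgroup.commutator_mem_commutator hn (hAle ha)
    | zero => simp
    | add x y _ _ hx hy =>
      have : L a (x + y) - (x + y) = (L a x - x) + (L a y - y) := by
        rw [map_add]; abel
      rw [this]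
      exact Submodule.add_mem _ hx hy
    | smul q x _ hx =>
      have : L a (q • x) - q • x = q • (L a x - x) := by
        rw [map_smul, smul_sub]
      rw [this]
      exact Submodule.smul_mem _ _ hx

end Pool.Agent.Helper27.ST
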