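import Pool.Agent.Helper5.ST.GoalsA

/-! Packet WALKQ: the averaging operator of a walk. -/

namespace Pool.Agent.Helper27.ST

open Pool.Agent.Helper5.Gap Pool.Agent.Helper5.ST Filter Topology
open Pool.Agent.Helper5.ST.Walk
open scoped InnerProductSpace commutatorElement

universe u

section

variable {G : Type u} [Group G] (w : Walk G) {V : Type u} [NormedAddCommGroup V]
  [InnerProductSpace ℝ V] (π : G →* (V ≃ₗᵢ[ℝ] V))

theorem inner_Qv (v v' : V) : ⟪w.Q π v, v'⟫_ℝ = ∑ i, w.p i * ⟪π (w.s i) v, v'⟫_ℝ := by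
  rw [Q_apply, sum_inner]
  refine Finset.sum_congr rfl (fun i _ => ?_)
  rw [inner_smul_left]
  rfl

theorem partA (v : V) :
    ∑ i, w.p i * ‖π (w.s i) v - v‖ ^ 2 = 2 * (‖v‖ ^ 2 - ⟪w.Q π v, v⟫_ℝ) := by
  rw [inner_Qv]
  have h : ∀ i, w.p i * ‖π (w.s i) v - v‖ ^ 2 =
      w.p i * (2 * ‖v‖ ^ 2) - 2 * (w.p i * ⟪π (w.s i) v, v⟫_ℝ) := by
    intro i
    rw [norm_sub_sq_real, norm_rep]
    ring
  simp only [h]
  rw [Finset.sum_sub_distrib, ← Finset.sum_mul, w.p_sum, ← Finset.mul_sum]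
  ring

theorem partB (v : V) : 0 ≤ ⟪w.Q π v, v⟫_ℝ := by
  classical
  rw [inner_Qv, ← Finset.add_sum_erase _ _ (Finset.mem_univ w.i₀)]
  have h0 : ⟪π (w.s w.i₀) v, v⟫_ℝ = ‖v‖ ^ 2 := by
    rw [w.s_i₀, rep_one, real_inner_self_eq_norm_sq]
  have h1 : -((∑ i ∈ Finset.univ.erase w.i₀, w.p i) * ‖v‖ ^ 2) ≤
      ∑ i ∈ Finset.univ.erase w.i₀, w.p i * ⟪π (w.s i) v, v⟫_ℝ := by
    rw [Finset.sum_mul, ← Finset.sum_neg_distrib]
    refine Finset.sum_le_sum (fun i _ => ?_)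
    have h2 : -(‖v‖ ^ 2) ≤ ⟪π (w.s i) v, v⟫_ℝ := by
      have := (abs_le.1 (abs_real_inner_le_norm (π (w.s i) v) v)).1
      rw [norm_rep] at this
      nlinarith
    have h3 := mul_le_mul_of_nonneg_left h2 (w.p_nonneg i)
    linarith
  have h4 : w.p w.i₀ + ∑ i ∈ Finset.univ.erase w.i₀, w.p i = 1 := by
    rw [Finset.add_sum_erase _ _ (Finset.mem_univ w.i₀), w.p_sum]
  have h5 := w.p_i₀
  rw [h0]
  have h6 : ∑ i ∈ Finset.univ.erase w.i₀, w.p i = 1 - w.p w.i₀ := by linarith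
  rw [h6] at h1
  have h7 : 0 ≤ ‖v‖ ^ 2 := sq_nonneg _
  nlinarith

theorem partC (v : V) : ‖w.Q π v‖ ≤ ‖v‖ := by
  rw [Q_apply]
  refine (norm_sum_le _ _).trans ?_
  have h : ∀ i, ‖w.p i • π (w.s i) v‖ = w.p i * ‖v‖ := by
    intro i
    rw [norm_smul, norm_rep, Real.norm_of_nonneg (w.p_nonneg i)]
  simp only [h]
  rw [← Finset.sum_mul, w.p_sum, one_mul]

theorem partD (hX : Subgroup.closure w.X = ⊤) (v : V) (hv : w.Q π v = v) (g : G) :
    π g v = v := by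
  have h1 := partA w π v
  rw [hv, real_inner_self_eq_norm_sq, sub_self, mul_zero] at h1
  have h2 := (Finset.sum_eq_zero_iff_of_nonneg (fun i _ =>
    mul_nonneg (w.p_nonneg i) (sq_nonneg _))).1 h1
  have h3 : ∀ i, π (w.s i) v = v := by
    intro i
    have h4 := h2 i (Finset.mem_univ i)
    rcases mul_eq_zero.1 h4 with h5 | h5
    · exact absurd h5 (w.p_pos i).ne'
    · exact sub_eq_zero.1 (norm_eq_zero.1 (pow_eq_zero_iff (two_ne_zero) |>.1 h5))
  let S : Subgroup G :=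
    { carrier := {g | π g v = v}
      mul_mem' := fun {a b} ha hb => by
        show π (a * b) v = v
        rw [rep_mul, (hb : π b v = v), (ha : π a v = v)]
      one_mem' := rep_one π v
      inv_mem' := fun {a} ha => by
        show π a⁻¹ v = v
        conv_lhs => rw [← (ha : π a v = v)]
        exact rep_inv_rep π a v }
  have h6 : w.X ⊆ S := by
    rintro _ ⟨i, rfl⟩
    exact h3 i
  have h7 : (⊤ : Subgroup G) ≤ S := by
    rw [← hX]
    exact (Subgroup.closure_le S).2 h6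
  exact h7 (Subgroup.mem_top g)

theorem partE (δ : V) (h1 : ‖δ‖ = 1) (h2 : ∀ g, g ≠ 1 → ⟪π g δ, δ⟫_ℝ = 0) (n : ℕ) :
    1 ≤ (growth w.X n : ℝ) * ⟪((w.Q π) ^ (2 * n)) δ, δ⟫_ℝ := by
  classical
  have h3 : ((w.Q π) ^ n) δ = ∑ g ∈ w.B n, w.mu n g • π g δ := by
    rw [← mean_rep, w.mean_eq_sum (fun g => π g δ) (Finset.Subset.refl (w.B n))]
  have horth : ∀ g h : G, ⟪π g δ, π h δ⟫_ℝ = if g = h then 1 else 0 := by
    intro g h
    by_cases hgh : g = h
    · subst hgh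
      rw [if_pos rfl, inner_rep, real_inner_self_eq_norm_sq, h1, one_pow]
    · rw [if_neg hgh, real_inner_comm, inner_rep_left, real_inner_comm, ← rep_mul]
      apply h2
      intro h4
      apply hgh
      have : h⁻¹ * g = 1 := h4
      exact (inv_mul_eq_one.1 this).symm
  have h4 : ⟪((w.Q π) ^ (2 * n)) δ, δ⟫_ℝ = ∑ g ∈ w.B n, w.mu n g ^ 2 := by
    rw [two_mul, pow_add, Module.End.mul_apply, w.inner_Q_pow, h3, sum_inner]
    refine Finset.sum_congr rfl (fun g hg => ?_)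
    rw [inner_smul_left, inner_sum]
    have : ∀ h ∈ w.B n, ⟪π g δ, w.mu n h • π h δ⟫_ℝ = if g = h then w.mu n h else 0 := by
      intro h _
      rw [inner_smul_right, horth]
      split_ifs <;> simp
    rw [Finset.sum_congr rfl this, Finset.sum_ite_eq, if_pos hg]
    simp [sq]
  rw [h4]
  have h5 : ∑ g ∈ w.B n, w.mu n g = 1 := w.sum_mu (Finset.Subset.refl _)
  have h6 := sq_sum_le_card_mul_sum_sq (s := w.B n) (f := fun g => w.mu n g)
  rw [h5, one_pow, w.card_B] at h6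
  exact h6

end

theorem walkQ : SWalkQ.{u} := by
  intro G _ w V _ _ π
  exact ⟨partA w π, partB w π, partC w π, fun hX v hv g => partD w π hX v hv g,
    fun δ h1 h2 n => partE w π δ h1 h2 n⟩

end Pool.Agent.Helper27.ST
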